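import Mathlib

/-!
Project PP (helper85): local approximation by translation invariant PEPS (MP_0f69bf_mp).

Every family of translation invariant states on the tori whose reduced density matrices converge is
locally approximated by one translation invariant PEPS for all large tori: superposition of all the
tilings of the torus by rectangles of fixed size (with optional extra rows and columns); every
rectangle carries a purification of the reduced state; classical marks make the tilings orthogonal.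
-/

set_option autoImplicit false

open Finset
open scoped ComplexConjugate ComplexOrder

namespace Pool.Agent.Q85.PP

/-- The sites of the torus with side `n + 1`. -/
abbrev Tor (n : ℕ) : Type := ZMod (n + 1) × ZMod (n + 1)

/-- The vector on the torus with side `n + 1` of the translation invariant PEPS with the tensor `A`
(physical index, then the left, right, lower and upper virtual index). -/
noncomputable def peps {d D : ℕ} (A : Fin d → Fin D → Fin D → Fin D → Fin D → ℂ) (n : ℕ)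
    (s : Tor n → Fin d) : ℂ :=
  ∑ a : Tor n → Fin D, ∑ b : Tor n → Fin D,
    ∏ v : Tor n, A (s v) (a (v.1 - 1, v.2)) (a v) (b (v.1, v.2 - 1)) (b v)

open Classical in
/-- The reduced density matrix of the matrix `M` (indexed by the configurations on `S`) on the
region with the positions `ι`. -/
noncomputable def red {S T : Type} [Fintype S] [DecidableEq S] {d : ℕ} (ι : T → S)
    (M : (S → Fin d) → (S → Fin d) → ℂ) (x y : T → Fin d) : ℂ :=
  ∑ c : S → Fin d, if ∀ r, c (ι r) = x r then M c (Function.extend ι y c) else 0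

/-- The rank one matrix of the vector `Φ`. -/
noncomputable def outer {S : Type} {d : ℕ} (Φ : (S → Fin d) → ℂ) (c c' : S → Fin d) : ℂ :=
  Φ c * conj (Φ c')

/-- The density matrix of the normalised vector `Ψ`. -/
noncomputable def pureState {S : Type} [Fintype S] [DecidableEq S] {d : ℕ} (Ψ : (S → Fin d) → ℂ)
    (c c' : S → Fin d) : ℂ :=
  (((∑ c, ‖Ψ c‖ ^ 2 : ℝ))⁻¹ : ℂ) * (Ψ c * conj (Ψ c'))

/-- The positions of the region `R` in the torus. -/
def pos (n : ℕ) (R : Finset (ℤ × ℤ)) (r : R) : Tor n :=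
  ((r.1.1 : ZMod (n + 1)), (r.1.2 : ZMod (n + 1)))

/-- Density matrices on the configurations on `S`. -/
structure Dens {S : Type} [Fintype S] [DecidableEq S] {d : ℕ} (ρ : (S → Fin d) → (S → Fin d) → ℂ) : Prop where
  psd : (Matrix.of ρ).PosSemidef
  tr : ∑ c, ρ c c = 1

/-- Translation invariant matrices on the torus. -/
def TInv {n d : ℕ} (ρ : (Tor n → Fin d) → (Tor n → Fin d) → ℂ) : Prop :=
  ∀ (t : Tor n) (c c' : Tor n → Fin d), ρ (fun v => c (v + t)) (fun v => c' (v + t)) = ρ c c'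

/-- The sum of the absolute values of the entries of `M - N`. -/
noncomputable def dist1 {T : Type} [Fintype T] [DecidableEq T] {d : ℕ} (M N : (T → Fin d) → (T → Fin d) → ℂ) : ℝ :=
  ∑ x, ∑ y, ‖M x y - N x y‖

/-! ### Tilings -/

/-- The label `i'` may follow the label `i`: the labels are the positions `0, ..., N - 1` in a block
and the position `N` of an optional extra site after the block. -/
def Nxt (N : ℕ) (i i' : Fin (N + 1)) : Prop :=
  (i' : ℕ) = i + 1 ∨ ((i' : ℕ) = 0 ∧ N ≤ i + 1)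

/-- A tiling of the cycle of length `n + 1` by blocks of length `N` and `N + 1`. -/
def IsW (N n : ℕ) (X : ZMod (n + 1) → Fin (N + 1)) : Prop :=
  ∀ x, Nxt N (X (x - 1)) (X x)

open Classical in
/-- The tilings of the cycle of length `n + 1`. -/
noncomputable def walks (N n : ℕ) : Finset (ZMod (n + 1) → Fin (N + 1)) :=
  univ.filter (IsW N n)

/-- The configuration in the window with the lower left corner `v`. -/
def win {d n N M : ℕ} (s : Tor n → Fin d) (v : Tor n) (q : Fin N × Fin M) : Fin d :=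
  s (v.1 + ((q.1 : ℕ) : ZMod (n + 1)), v.2 + ((q.2 : ℕ) : ZMod (n + 1)))

/-- The vector of the tiling `(X, Y)` with the weight function `w`. -/
noncomputable def Phi {d n N M : ℕ}
    (w : Fin (N + 1) → Fin (M + 1) → (Fin N × Fin M → Fin d) → ℂ)
    (X : ZMod (n + 1) → Fin (N + 1)) (Y : ZMod (n + 1) → Fin (M + 1)) (s : Tor n → Fin d) : ℂ :=
  ∏ v : Tor n, w (X v.1) (Y v.2) (win s v)

/-- The configurations of a block (width `m + 2`, height `2 k + 1`). -/
abbrev Blk (e m k : ℕ) : Type := Fin (m + 2) × Fin (2 * k + 1) → Fin (e + 2)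

/-- The fixed state of the extra sites. -/
def ext {e m k : ℕ} (i : Fin (m + 2 + 1)) (j : Fin (2 * k + 1 + 1)) : Fin (e + 2) :=
  if (j : ℕ) = 2 * k + 1 ∧ (i : ℕ) ≤ 1 then 1 else 0

/-- The weight function of the block state `χ`. -/
noncomputable def wt {e m k : ℕ} (χ : Blk e m k → ℂ) (i : Fin (m + 2 + 1))
    (j : Fin (2 * k + 1 + 1)) (κ : Blk e m k) : ℂ :=
  if (i : ℕ) = 0 ∧ (j : ℕ) = 0 then χ κ
  else if (i : ℕ) = m + 2 ∨ (j : ℕ) = 2 * k + 1 then (if κ (0, 0) = ext i j then 1 else 0)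
  else 1

/-- The classical marks of a block: the row `0` is `1 0 0 ... 0`, the other rows start with `1 1`. -/
def Pat {e m k : ℕ} (κ : Blk e m k) : Prop :=
  κ (0, 0) = 1 ∧ (∀ i : Fin (m + 2), i ≠ 0 → κ (i, 0) = 0) ∧
    ∀ j : Fin (2 * k + 1), j ≠ 0 → κ (0, j) = 1 ∧ κ (1, j) = 1

/-- The lower part of the inner region of a block. -/
def lowB {m k : ℕ} (q : Fin m × Fin k) : Fin (m + 2) × Fin (2 * k + 1) :=
  (⟨q.1 + 2, by omega⟩, ⟨q.2 + 1, by omega⟩)

/-- The upper part of the inner region of a block. -/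
def upB {m k : ℕ} (q : Fin m × Fin k) : Fin (m + 2) × Fin (2 * k + 1) :=
  (⟨q.1 + 2, by omega⟩, ⟨q.2 + 1 + k, by omega⟩)

/-! ### The parts -/

/-- PP-1. Sums over the tilings of local weights are translation invariant PEPS. -/
def StmPeps : Prop := ∀ (d N M : ℕ), 0 < N → 0 < M →
  ∀ w : Fin (N + 1) → Fin (M + 1) → (Fin N × Fin M → Fin d) → ℂ,
    ∃ (D : ℕ) (A : Fin d → Fin D → Fin D → Fin D → Fin D → ℂ), ∀ (n : ℕ) (s : Tor n → Fin d),
      peps A n s = ∑ X ∈ walks N n, ∑ Y ∈ walks M n, Phi w X Y s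

/-- PP-2. Elementary facts about the tilings. -/
def StmWalk : Prop := ∀ N : ℕ, 0 < N →
  (∀ (n : ℕ), ∀ X ∈ walks N n, ∀ a : ZMod (n + 1), (X (a - ((X a : ℕ) : ZMod (n + 1))) : ℕ) = 0) ∧
  (∀ (n : ℕ) (a : ZMod (n + 1)) (i : Fin (N + 1)),
    N * ((walks N n).filter (fun X => X a = i)).card ≤ (walks N n).card) ∧
  ∃ n₀ : ℕ, ∀ n, n₀ ≤ n → (walks N n).Nonempty

/-- PP-3. Different tilings are orthogonal, even if a small region is removed: two configurations
with nonzero amplitudes which agree outside of `C₁ × C₂` belong to the same tiling. -/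
def StmOrth : Prop := ∀ (e m k : ℕ), 0 < m → 0 < k → ∀ χ : Blk e m k → ℂ,
  (∀ κ, χ κ ≠ 0 → Pat κ) → ∀ r : ℕ, ∃ n₀ : ℕ, ∀ n, n₀ ≤ n →
    ∀ C₁ C₂ : Finset (ZMod (n + 1)), C₁.card ≤ r → C₂.card ≤ r →
    ∀ X ∈ walks (m + 2) n, ∀ X' ∈ walks (m + 2) n, ∀ Y ∈ walks (2 * k + 1) n,
    ∀ Y' ∈ walks (2 * k + 1) n, ∀ s s' : Tor n → Fin (e + 2),
      Phi (wt χ) X Y s ≠ 0 → Phi (wt χ) X' Y' s' ≠ 0 →
      (∀ v : Tor n, ¬ (v.1 ∈ C₁ ∧ v.2 ∈ C₂) → s v = s' v) → X = X' ∧ Y = Y'

/-- PP-4. The norm of the vector of a tiling and its reduced density matrix inside of a block. -/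
def StmMarg : Prop := ∀ (e m k : ℕ) (χ : Blk e m k → ℂ), ∑ κ, ‖χ κ‖ ^ 2 = 1 →
  ∀ (n : ℕ), ∀ X ∈ walks (m + 2) n, ∀ Y ∈ walks (2 * k + 1) n,
    ∑ s : Tor n → Fin (e + 2), ‖Phi (wt χ) X Y s‖ ^ 2 = 1 ∧
    ∀ (T : Type) [Fintype T] (ι : T → Tor n) (θ : T → Fin (m + 2) × Fin (2 * k + 1))
      (x₀ y₀ : ZMod (n + 1)), Function.Injective ι → (X x₀ : ℕ) = 0 → (Y y₀ : ℕ) = 0 →
      (∀ r, ι r = (x₀ + (((θ r).1 : ℕ) : ZMod (n + 1)), y₀ + (((θ r).2 : ℕ) : ZMod (n + 1)))) →
      ∀ x y : T → Fin (e + 2),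
        red ι (outer (Phi (wt χ) X Y)) x y = red θ (outer χ) x y

/-- PP-5. A block state with the classical marks which has the given reduced density matrix on the
lower and on the upper part. -/
def StmChi : Prop := ∀ (e m k : ℕ), 0 < m → 0 < k →
  ∀ τ : (Fin m × Fin k → Fin (e + 2)) → (Fin m × Fin k → Fin (e + 2)) → ℂ, Dens τ →
    ∃ χ : Blk e m k → ℂ, ∑ κ, ‖χ κ‖ ^ 2 = 1 ∧ (∀ κ, χ κ ≠ 0 → Pat κ) ∧
      ∀ (T : Type) [Fintype T] (ι : T → Fin m × Fin k), Function.Injective ι →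
        ∀ x y : T → Fin (e + 2), red (fun r => lowB (ι r)) (outer χ) x y = red ι τ x y ∧
          red (fun r => upB (ι r)) (outer χ) x y = red ι τ x y

/-- PP-6. Reduced density matrices. -/
def StmRed : Prop :=
  (∀ (S T : Type) [Fintype S] [DecidableEq S] [Fintype T] [DecidableEq T] (d : ℕ) (ι : T → S)
    (ρ : (S → Fin d) → (S → Fin d) → ℂ), Function.Injective ι → Dens ρ → Dens (red ι ρ)) ∧
  (∀ (T : Type) [Fintype T] [DecidableEq T] (d : ℕ) (ρ : (T → Fin d) → (T → Fin d) → ℂ), Dens ρ →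
    ∑ x, ∑ y, ‖ρ x y‖ ≤ (d : ℝ) ^ Fintype.card T) ∧
  (∀ (n m k d : ℕ) (ρ : (Tor n → Fin d) → (Tor n → Fin d) → ℂ), TInv ρ → m ≤ n + 1 → k ≤ n + 1 →
    ∀ (T : Type) [Fintype T] (ι : T → Fin m × Fin k) (p : T → Tor n) (t : Tor n),
      Function.Injective ι →
      (∀ r, p r = ((((ι r).1 : ℕ) : ZMod (n + 1)) + t.1, (((ι r).2 : ℕ) : ZMod (n + 1)) + t.2)) →
      ∀ x y : T → Fin d, red ι (red (fun q : Fin m × Fin k =>
        ((((q.1 : ℕ) : ZMod (n + 1)), ((q.2 : ℕ) : ZMod (n + 1))) : Tor n)) ρ) x y = red p ρ x y)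

/-- The theorem. -/
def StmMain : Prop := ∀ (d : ℕ) (ρ : ∀ n, (Tor n → Fin d) → (Tor n → Fin d) → ℂ),
  (∀ n, Dens (ρ n) ∧ TInv (ρ n)) → ∀ (R : Finset (ℤ × ℤ)) (δ ε : ℝ),
  (∀ᶠ m in Filter.atTop, ∀ᶠ n in Filter.atTop,
    dist1 (red (pos m R) (ρ m)) (red (pos n R) (ρ n)) ≤ δ) → 0 < ε →
  ∃ (D : ℕ) (A : Fin d → Fin D → Fin D → Fin D → Fin D → ℂ), ∀ᶠ n in Filter.atTop,
    peps A n ≠ 0 ∧ dist1 (red (pos n R) (pureState (peps A n))) (red (pos n R) (ρ n)) ≤ δ + ε

end Pool.Agent.Q85.PP
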