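import Pool.Agent.Q85.PP.Fin
import Pool.Agent.Q68.PP.Peps
import Pool.Agent.Q68.PP.Walk
import Pool.Agent.Q68.PP.Orth
import Pool.Agent.Q68.PP.Marg
import Pool.Agent.Q68.PP.Chi
import Pool.Agent.Q68.PP.Red

/-!
Project PP (helper85): the theorem on local approximation by translation invariant PEPS.
-/

set_option autoImplicit false

namespace Pool.Agent.Q85.PP

theorem stmMain : StmMain :=
  main Pool.Agent.Q68.PP.peps_sum Pool.Agent.Q68.PP.walk_facts Pool.Agent.Q68.PP.orth
    Pool.Agent.Q68.PP.marg Pool.Agent.Q68.PP.block_state Pool.Agent.Q68.PP.reduced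

end Pool.Agent.Q85.PP
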