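import Pool.Agent.Q85.PP.Defs

/-!
Project PP: the assembly of the parts.
-/

set_option autoImplicit false

open Finset Filter
open scoped ComplexConjugate ComplexOrder

namespace Pool.Agent.Q85.PP

lemma extend_self {S T : Type} {d : ℕ} (ι : T → S) (c : S → Fin d) :
    Function.extend ι (fun r => c (ι r)) c = c := by
  classical
  funext v
  by_cases h : ∃ r, ι r = v
  · rw [Function.extend_def, dif_pos h, h.choose_spec]
  · rw [Function.extend_apply' _ _ _ h]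

lemma extend_off {S T : Type} {d : ℕ} (ι : T → S) (y : T → Fin d) (c : S → Fin d) (v : S)
    (h : ¬ ∃ r, ι r = v) : Function.extend ι y c v = c v :=
  Function.extend_apply' _ _ _ h

section dist

variable {T : Type} [Fintype T] [DecidableEq T] {d : ℕ}

lemma dist1_nonneg (M N : (T → Fin d) → (T → Fin d) → ℂ) : 0 ≤ dist1 M N :=
  sum_nonneg fun _ _ => sum_nonneg fun _ _ => norm_nonneg _

lemma dist1_comm (M N : (T → Fin d) → (T → Fin d) → ℂ) : dist1 M N = dist1 N M := by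
  unfold dist1
  exact sum_congr rfl fun x _ => sum_congr rfl fun y _ => norm_sub_rev _ _

lemma dist1_self (M : (T → Fin d) → (T → Fin d) → ℂ) : dist1 M M = 0 := by
  simp [dist1]

lemma dist1_tri (M N P : (T → Fin d) → (T → Fin d) → ℂ) :
    dist1 M P ≤ dist1 M N + dist1 N P := by
  unfold dist1
  rw [← sum_add_distrib]
  refine sum_le_sum fun x _ => ?_
  rw [← sum_add_distrib]
  refine sum_le_sum fun y _ => ?_
  have : M x y - P x y = (M x y - N x y) + (N x y - P x y) := by ring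
  rw [this]
  exact norm_add_le _ _

lemma dist1_le_add (M N : (T → Fin d) → (T → Fin d) → ℂ) :
    dist1 M N ≤ (∑ x, ∑ y, ‖M x y‖) + ∑ x, ∑ y, ‖N x y‖ := by
  unfold dist1
  rw [← sum_add_distrib]
  refine sum_le_sum fun x _ => ?_
  rw [← sum_add_distrib]
  exact sum_le_sum fun y _ => norm_sub_le _ _

/-- The distance of a mean value from `N`. -/
lemma dist1_avg {I : Type} (F : Finset I) (hF : F.Nonempty)
    (M : I → (T → Fin d) → (T → Fin d) → ℂ) (N : (T → Fin d) → (T → Fin d) → ℂ) :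
    dist1 (fun x y => ((F.card : ℂ))⁻¹ * ∑ i ∈ F, M i x y) N
      ≤ ((F.card : ℝ))⁻¹ * ∑ i ∈ F, dist1 (M i) N := by
  have hc : (0 : ℝ) < F.card := by exact_mod_cast hF.card_pos
  have hcc : (F.card : ℂ) ≠ 0 := by exact_mod_cast hF.card_pos.ne'
  have h1 : ∀ x y, ‖((F.card : ℂ))⁻¹ * ∑ i ∈ F, M i x y - N x y‖
      ≤ ((F.card : ℝ))⁻¹ * ∑ i ∈ F, ‖M i x y - N x y‖ := by
    intro x y
    have e1 : ((F.card : ℂ))⁻¹ * ∑ i ∈ F, M i x y - N x y
        = ((F.card : ℂ))⁻¹ * ∑ i ∈ F, (M i x y - N x y) := by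
      rw [sum_sub_distrib, sum_const, nsmul_eq_mul, mul_sub, ← mul_assoc, inv_mul_cancel₀ hcc,
        one_mul]
    rw [e1, norm_mul, norm_inv, Complex.norm_natCast]
    exact mul_le_mul_of_nonneg_left (norm_sum_le _ _) (by positivity)
  calc dist1 (fun x y => ((F.card : ℂ))⁻¹ * ∑ i ∈ F, M i x y) N
      ≤ ∑ x, ∑ y, ((F.card : ℝ))⁻¹ * ∑ i ∈ F, ‖M i x y - N x y‖ :=
        sum_le_sum fun x _ => sum_le_sum fun y _ => h1 x y
    _ = ((F.card : ℝ))⁻¹ * ∑ x, ∑ y, ∑ i ∈ F, ‖M i x y - N x y‖ := by simp_rw [← mul_sum]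
    _ = ((F.card : ℝ))⁻¹ * ∑ x, ∑ i ∈ F, ∑ y, ‖M i x y - N x y‖ := by
        congr 1
        exact sum_congr rfl fun x _ => sum_comm
    _ = ((F.card : ℝ))⁻¹ * ∑ i ∈ F, dist1 (M i) N := by
        congr 1
        exact sum_comm

end dist

/-- The rank one matrix of a normalised vector is a density matrix. -/
lemma dens_outer {S : Type} [Fintype S] [DecidableEq S] {d : ℕ} (Φ : (S → Fin d) → ℂ)
    (h : ∑ c, ‖Φ c‖ ^ 2 = 1) : Dens (outer Φ) := by
  refine ⟨?_, ?_⟩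
  · have e1 : Matrix.of (outer Φ) = Matrix.vecMulVec Φ (star Φ) := by
      ext c c'
      rfl
    rw [e1]
    exact Matrix.posSemidef_vecMulVec_self_star Φ
  · have e1 : ∀ c, outer Φ c c = ((‖Φ c‖ ^ 2 : ℝ) : ℂ) := by
      intro c
      rw [outer, Complex.mul_conj, Complex.normSq_eq_norm_sq]
    simp_rw [e1]
    rw [← Complex.ofReal_sum, h, Complex.ofReal_one]

section sup

variable {S T I : Type} [Fintype S] [DecidableEq S] {d : ℕ}

/-- The norm of a superposition of orthonormal vectors. -/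
lemma norm_sup (F : Finset I) (Φ : I → (S → Fin d) → ℂ) (Ψ : (S → Fin d) → ℂ)
    (hΨ : ∀ s, Ψ s = ∑ i ∈ F, Φ i s) (h1 : ∀ i ∈ F, ∑ s, ‖Φ i s‖ ^ 2 = 1)
    (h0 : ∀ i ∈ F, ∀ j ∈ F, i ≠ j → ∀ s, Φ i s * conj (Φ j s) = 0) :
    ∑ s, ‖Ψ s‖ ^ 2 = F.card := by
  classical
  have e0 : ∀ z : ℂ, ((‖z‖ ^ 2 : ℝ) : ℂ) = z * conj z := by
    intro z
    rw [Complex.mul_conj, Complex.normSq_eq_norm_sq]
  have e1 : ((∑ s, ‖Ψ s‖ ^ 2 : ℝ) : ℂ) = F.card := by
    rw [Complex.ofReal_sum]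
    have e2 : ∀ s, ((‖Ψ s‖ ^ 2 : ℝ) : ℂ) = ∑ i ∈ F, ((‖Φ i s‖ ^ 2 : ℝ) : ℂ) := by
      intro s
      rw [e0, hΨ, map_sum, sum_mul_sum]
      refine sum_congr rfl fun i hi => ?_
      rw [sum_eq_single_of_mem i hi fun j hj hji => h0 i hi j hj hji.symm s, e0]
    simp_rw [e2]
    rw [sum_comm]
    have e3 : ∀ i ∈ F, ∑ s, ((‖Φ i s‖ ^ 2 : ℝ) : ℂ) = 1 := by
      intro i hi
      rw [← Complex.ofReal_sum, h1 i hi, Complex.ofReal_one]
    rw [sum_congr rfl e3]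
    simp
  exact_mod_cast e1

/-- The reduced density matrix of a superposition of vectors which are orthogonal outside of the
region. -/
lemma red_sup (ι : T → S) (F : Finset I) (Φ : I → (S → Fin d) → ℂ) (Ψ : (S → Fin d) → ℂ)
    (hΨ : ∀ s, Ψ s = ∑ i ∈ F, Φ i s) (h1 : ∀ i ∈ F, ∑ s, ‖Φ i s‖ ^ 2 = 1)
    (h0 : ∀ i ∈ F, ∀ j ∈ F, i ≠ j → ∀ (s : S → Fin d) (y : T → Fin d),
      Φ i s * conj (Φ j (Function.extend ι y s)) = 0) (x y : T → Fin d) :
    red ι (pureState Ψ) x y = ((F.card : ℂ))⁻¹ * ∑ i ∈ F, red ι (outer (Φ i)) x y := by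
  classical
  have h00 : ∀ i ∈ F, ∀ j ∈ F, i ≠ j → ∀ s, Φ i s * conj (Φ j s) = 0 := by
    intro i hi j hj hij s
    have := h0 i hi j hj hij s (fun r => s (ι r))
    rwa [extend_self] at this
  have hn := norm_sup F Φ Ψ hΨ h1 h00
  unfold red
  rw [sum_comm, mul_sum]
  refine sum_congr rfl fun c _ => ?_
  by_cases hc : ∀ r, c (ι r) = x r
  · simp only [if_pos hc]
    unfold pureState outer
    rw [hn, hΨ c, hΨ (Function.extend ι y c), map_sum, sum_mul_sum]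
    congr 1
    refine sum_congr rfl fun i hi => ?_
    rw [sum_eq_single_of_mem i hi fun j hj hji => h0 i hi j hj hji.symm c y]
  · simp only [if_neg hc, sum_const_zero, mul_zero]

end sup

/-- A box which contains the region. -/
lemma exists_box (R : Finset (ℤ × ℤ)) : ∃ b : ℕ, ∀ p ∈ R, -(b : ℤ) ≤ p.1 ∧ p.1 ≤ b ∧
    -(b : ℤ) ≤ p.2 ∧ p.2 ≤ b := by
  refine ⟨R.sup fun p => p.1.natAbs + p.2.natAbs, fun p hp => ?_⟩
  have h : p.1.natAbs + p.2.natAbs ≤ R.sup fun p => p.1.natAbs + p.2.natAbs :=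
    le_sup (f := fun p : ℤ × ℤ => p.1.natAbs + p.2.natAbs) hp
  omega

lemma pos_inj (n b : ℕ) (R : Finset (ℤ × ℤ)) (hb : ∀ p ∈ R, -(b : ℤ) ≤ p.1 ∧ p.1 ≤ b ∧
    -(b : ℤ) ≤ p.2 ∧ p.2 ≤ b) (hn : 2 * b ≤ n) : Function.Injective (pos n R) := by
  have key : ∀ u v : ℤ, -(b : ℤ) ≤ u → u ≤ b → -(b : ℤ) ≤ v → v ≤ b →
      ((u : ZMod (n + 1)) = (v : ZMod (n + 1))) → u = v := by
    intro u v hu1 hu2 hv1 hv2 huv
    rw [ZMod.intCast_eq_intCast_iff_dvd_sub] at huv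
    obtain ⟨c, hc⟩ := huv
    push_cast at hc
    have hc0 : c = 0 := by
      by_contra hne
      rcases lt_or_gt_of_ne hne with h | h
      · nlinarith
      · nlinarith
    rw [hc0] at hc
    linarith
  rintro ⟨p, hp⟩ ⟨q, hq⟩ h
  simp only [pos, Prod.mk.injEq] at h
  obtain ⟨h1, h2, h3, h4⟩ := hb p hp
  obtain ⟨h5, h6, h7, h8⟩ := hb q hq
  exact Subtype.ext (Prod.ext (key _ _ h1 h2 h5 h6 h.1) (key _ _ h3 h4 h7 h8 h.2))

/-- The reduced density matrix of a tiling in good position. -/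
lemma red_good (h2 : StmWalk) (h4 : StmMarg) (h6 : StmRed) {e m b : ℕ} {R : Finset (ℤ × ℤ)}
    (hb : ∀ p ∈ R, -(b : ℤ) ≤ p.1 ∧ p.1 ≤ b ∧ -(b : ℤ) ≤ p.2 ∧ p.2 ≤ b) {n₁ n : ℕ}
    (hn₁ : m ≤ n₁ + 1) (hn : 2 * b ≤ n) {ρ : (Tor n₁ → Fin (e + 2)) → (Tor n₁ → Fin (e + 2)) → ℂ}
    (hρ : TInv ρ) {χ : Blk e m m → ℂ} (hχ1 : ∑ κ, ‖χ κ‖ ^ 2 = 1)
    (hχ2 : ∀ (T : Type) [Fintype T] (ι : T → Fin m × Fin m), Function.Injective ι →
        ∀ x y : T → Fin (e + 2), red (fun r => lowB (ι r)) (outer χ) x y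
          = red ι (red (fun q : Fin m × Fin m =>
        ((((q.1 : ℕ) : ZMod (n₁ + 1)), ((q.2 : ℕ) : ZMod (n₁ + 1))) : Tor n₁)) ρ) x y ∧
          red (fun r => upB (ι r)) (outer χ) x y = red ι (red (fun q : Fin m × Fin m =>
        ((((q.1 : ℕ) : ZMod (n₁ + 1)), ((q.2 : ℕ) : ZMod (n₁ + 1))) : Tor n₁)) ρ) x y)
    {X : ZMod (n + 1) → Fin (m + 2 + 1)} (hX : X ∈ walks (m + 2) n)
    {Y : ZMod (n + 1) → Fin (2 * m + 1 + 1)} (hY : Y ∈ walks (2 * m + 1) n)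
    (hX1 : 2 ≤ (X (-(b : ZMod (n + 1))) : ℕ)) (hX2 : (X (-(b : ZMod (n + 1))) : ℕ) + 2 * b ≤ m + 1)
    (hY1 : (1 ≤ (Y (-(b : ZMod (n + 1))) : ℕ) ∧ (Y (-(b : ZMod (n + 1))) : ℕ) + 2 * b ≤ m) ∨
      (m + 1 ≤ (Y (-(b : ZMod (n + 1))) : ℕ) ∧ (Y (-(b : ZMod (n + 1))) : ℕ) + 2 * b ≤ 2 * m))
    (x y : R → Fin (e + 2)) :
    red (pos n R) (outer (Phi (wt χ) X Y)) x y = red (pos n₁ R) ρ x y := by
  obtain ⟨i₀, hi₀⟩ : ∃ i₀, i₀ = (X (-(b : ZMod (n + 1))) : ℕ) := ⟨_, rfl⟩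
  obtain ⟨j₀, hj₀⟩ : ∃ j₀, j₀ = (Y (-(b : ZMod (n + 1))) : ℕ) := ⟨_, rfl⟩
  rw [← hi₀] at hX1 hX2
  rw [← hj₀] at hY1
  have hx0 := (h2 (m + 2) (by omega)).1 n X hX (-(b : ZMod (n + 1)))
  have hy0 := (h2 (2 * m + 1) (by omega)).1 n Y hY (-(b : ZMod (n + 1)))
  rw [← hi₀] at hx0
  rw [← hj₀] at hy0
  -- the offsets
  have ho : ∀ r : R, ((r.1.1 + b).toNat : ℤ) = r.1.1 + b ∧ ((r.1.2 + b).toNat : ℤ) = r.1.2 + b ∧
      (r.1.1 + b).toNat ≤ 2 * b ∧ (r.1.2 + b).toNat ≤ 2 * b := by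
    rintro ⟨p, hp⟩
    obtain ⟨h1, h2, h3, h4⟩ := hb p hp
    simp only
    omega
  have hj2 : j₀ + 2 * b ≤ 2 * m := by rcases hY1 with h | h <;> omega
  have hθ : ∀ r : R, i₀ + (r.1.1 + b).toNat < m + 2 ∧ j₀ + (r.1.2 + b).toNat < 2 * m + 1 := by
    intro r
    obtain ⟨-, -, h3, h4⟩ := ho r
    omega
  have hM := (h4 e m m χ hχ1 n X hX Y hY).2 R (pos n R)
    (fun r => (⟨i₀ + (r.1.1 + b).toNat, (hθ r).1⟩, ⟨j₀ + (r.1.2 + b).toNat, (hθ r).2⟩))
    (-(b : ZMod (n + 1)) - (i₀ : ZMod (n + 1))) (-(b : ZMod (n + 1)) - (j₀ : ZMod (n + 1)))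
    (pos_inj n b R hb hn) hx0 hy0 (by
      intro r
      obtain ⟨h1, h2, h3, h4⟩ := ho r
      have e1 : (((r.1.1 + b).toNat : ℕ) : ZMod (n + 1)) = (r.1.1 : ZMod (n + 1)) + b := by
        have := congrArg (Int.cast : ℤ → ZMod (n + 1)) h1
        push_cast at this
        exact this
      have e2 : (((r.1.2 + b).toNat : ℕ) : ZMod (n + 1)) = (r.1.2 : ZMod (n + 1)) + b := by
        have := congrArg (Int.cast : ℤ → ZMod (n + 1)) h2
        push_cast at this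
        exact this
      refine Prod.ext ?_ ?_
      · simp only [pos]
        push_cast
        rw [e1]
        ring
      · simp only [pos]
        push_cast
        rw [e2]
        ring) x y
  rw [hM]
  -- the position in the lower or in the upper part
  obtain ⟨l, hl, hl1, hl2⟩ : ∃ l : ℕ, (l = 1 ∨ l = m + 1) ∧ l ≤ j₀ ∧ j₀ + 2 * b ≤ l + m - 1 := by
    rcases hY1 with h | h
    · exact ⟨1, Or.inl rfl, h.1, by omega⟩
    · exact ⟨m + 1, Or.inr rfl, h.1, by omega⟩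
  have hm : 0 < m := by omega
  have hκ : ∀ r : R, i₀ - 2 + (r.1.1 + b).toNat < m ∧ j₀ - l + (r.1.2 + b).toNat < m := by
    intro r
    obtain ⟨-, -, h3, h4⟩ := ho r
    omega
  obtain ⟨κ, hκd⟩ : ∃ κ : R → Fin m × Fin m, κ = fun r =>
    (⟨i₀ - 2 + (r.1.1 + b).toNat, (hκ r).1⟩, ⟨j₀ - l + (r.1.2 + b).toNat, (hκ r).2⟩) := ⟨_, rfl⟩
  have hκi : Function.Injective κ := by
    intro r r' h
    rw [hκd] at h
    simp only [Prod.mk.injEq, Fin.mk.injEq] at h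
    obtain ⟨h1, h2, -, -⟩ := ho r
    obtain ⟨h1', h2', -, -⟩ := ho r'
    refine Subtype.ext (Prod.ext ?_ ?_) <;> omega
  have hred := hχ2 R κ hκi x y
  have hlast := h6.2.2 n₁ m m (e + 2) ρ hρ hn₁ hn₁ R κ (pos n₁ R)
    (-(b : ZMod (n₁ + 1)) - ((i₀ - 2 : ℕ) : ZMod (n₁ + 1)),
      -(b : ZMod (n₁ + 1)) - ((j₀ - l : ℕ) : ZMod (n₁ + 1))) hκi (by
      intro r
      obtain ⟨h1, h2, h3, h4⟩ := ho r
      have e1 : (((r.1.1 + b).toNat : ℕ) : ZMod (n₁ + 1)) = (r.1.1 : ZMod (n₁ + 1)) + b := by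
        have := congrArg (Int.cast : ℤ → ZMod (n₁ + 1)) h1
        push_cast at this
        exact this
      have e2 : (((r.1.2 + b).toNat : ℕ) : ZMod (n₁ + 1)) = (r.1.2 : ZMod (n₁ + 1)) + b := by
        have := congrArg (Int.cast : ℤ → ZMod (n₁ + 1)) h2
        push_cast at this
        exact this
      rw [hκd]
      refine Prod.ext ?_ ?_
      · simp only [pos]
        rw [Nat.cast_add, e1]
        ring
      · simp only [pos]
        rw [Nat.cast_add, e2]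
        ring) x y
  rw [← hlast]
  rcases hl with hl | hl
  · rw [← hred.1]
    congr 1
    funext r
    rw [hκd]
    refine Prod.ext (Fin.ext ?_) (Fin.ext ?_)
    · simp only [lowB]
      omega
    · simp only [lowB]
      omega
  · rw [← hred.2]
    congr 1
    funext r
    rw [hκd]
    refine Prod.ext (Fin.ext ?_) (Fin.ext ?_)
    · simp only [upB]
      omega
    · simp only [upB]
      omega

/-! ### The main theorem -/

lemma card_bad (h2 : StmWalk) {N n : ℕ} (hN : 0 < N) (a : ZMod (n + 1)) (B : Finset (Fin (N + 1))) :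
    (N : ℝ) * (((walks N n).filter (fun X => X a ∈ B)).card : ℝ)
      ≤ (B.card : ℝ) * ((walks N n).card : ℝ) := by
  classical
  have h1 : (walks N n).filter (fun X => X a ∈ B)
      = B.biUnion fun i => (walks N n).filter (fun X => X a = i) := by
    ext X
    simp only [mem_filter, mem_biUnion]
    constructor
    · rintro ⟨hX, hB⟩
      exact ⟨X a, hB, hX, rfl⟩
    · rintro ⟨i, hi, hX, rfl⟩
      exact ⟨hX, hi⟩
  rw [h1]
  have h3 : (((B.biUnion fun i => (walks N n).filter (fun X => X a = i)).card : ℕ) : ℝ)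
      ≤ ∑ i ∈ B, (((walks N n).filter (fun X => X a = i)).card : ℝ) := by
    exact_mod_cast card_biUnion_le
  calc (N : ℝ) * (((B.biUnion fun i => (walks N n).filter (fun X => X a = i)).card : ℕ) : ℝ)
      ≤ (N : ℝ) * ∑ i ∈ B, (((walks N n).filter (fun X => X a = i)).card : ℝ) :=
        mul_le_mul_of_nonneg_left h3 (by positivity)
    _ = ∑ i ∈ B, (N : ℝ) * (((walks N n).filter (fun X => X a = i)).card : ℝ) := by
        rw [mul_sum]
    _ ≤ ∑ i ∈ B, ((walks N n).card : ℝ) := by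
        refine sum_le_sum fun i _ => ?_
        exact_mod_cast (h2 N hN).2.1 n a i
    _ = (B.card : ℝ) * ((walks N n).card : ℝ) := by
        rw [sum_const, nsmul_eq_mul]

lemma card_bx (m b : ℕ) (hm : 2 * b + 1 ≤ m) :
    ((univ : Finset (Fin (m + 2 + 1))).filter
      (fun i : Fin (m + 2 + 1) => ¬ (2 ≤ (i : ℕ) ∧ (i : ℕ) + 2 * b ≤ m + 1))).card ≤ 2 * b + 3 := by
  have h := card_le_card_of_injOn (s := (univ : Finset (Fin (m + 2 + 1))).filter
      (fun i : Fin (m + 2 + 1) => ¬ (2 ≤ (i : ℕ) ∧ (i : ℕ) + 2 * b ≤ m + 1))) (t := range (2 * b + 3))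
    (fun i : Fin (m + 2 + 1) => if (i : ℕ) < 2 then (i : ℕ) else (i : ℕ) - (m + 2 - 2 * b) + 2) (by
      intro i hi
      have hi' : ¬ (2 ≤ (i : ℕ) ∧ (i : ℕ) + 2 * b ≤ m + 1) := (mem_filter.1 hi).2
      have := i.2
      simp only [coe_range, Set.mem_Iio]
      split_ifs <;> omega) (by
      intro i hi j hj hij
      have hi' : ¬ (2 ≤ (i : ℕ) ∧ (i : ℕ) + 2 * b ≤ m + 1) := (mem_filter.1 hi).2
      have hj' : ¬ (2 ≤ (j : ℕ) ∧ (j : ℕ) + 2 * b ≤ m + 1) := (mem_filter.1 hj).2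
      have h1 := i.2
      have h2 := j.2
      simp only at hij
      refine Fin.ext ?_
      split_ifs at hij <;> omega)
  rwa [card_range] at h

lemma card_by (m b : ℕ) (hm : 2 * b + 1 ≤ m) :
    ((univ : Finset (Fin (2 * m + 1 + 1))).filter
      (fun j : Fin (2 * m + 1 + 1) => ¬ ((1 ≤ (j : ℕ) ∧ (j : ℕ) + 2 * b ≤ m) ∨
        (m + 1 ≤ (j : ℕ) ∧ (j : ℕ) + 2 * b ≤ 2 * m)))).card ≤ 4 * b + 2 := by
  have h := card_le_card_of_injOn (s := (univ : Finset (Fin (2 * m + 1 + 1))).filter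
      (fun j : Fin (2 * m + 1 + 1) => ¬ ((1 ≤ (j : ℕ) ∧ (j : ℕ) + 2 * b ≤ m) ∨
        (m + 1 ≤ (j : ℕ) ∧ (j : ℕ) + 2 * b ≤ 2 * m)))) (t := range (4 * b + 2))
    (fun j : Fin (2 * m + 1 + 1) => if (j : ℕ) = 0 then 0 else if (j : ℕ) ≤ m then (j : ℕ) - (m - 2 * b)
      else (j : ℕ) - (2 * m - 2 * b + 1) + 2 * b + 1) (by
      intro i hi
      have hi' := (mem_filter.1 hi).2
      have := i.2
      simp only [coe_range, Set.mem_Iio]
      split_ifs <;> omega) (by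
      intro i hi j hj hij
      have hi' := (mem_filter.1 hi).2
      have hj' := (mem_filter.1 hj).2
      have h1 := i.2
      have h2 := j.2
      simp only at hij
      refine Fin.ext ?_
      split_ifs at hij <;> omega)
  rwa [card_range] at h

set_option maxHeartbeats 1600000 in
theorem main2 (h1 : StmPeps) (h2 : StmWalk) (h3 : StmOrth) (h4 : StmMarg) (h5 : StmChi)
    (h6 : StmRed) (e : ℕ) (ρ : ∀ n, (Tor n → Fin (e + 2)) → (Tor n → Fin (e + 2)) → ℂ)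
    (hρ : ∀ n, Dens (ρ n) ∧ TInv (ρ n)) (R : Finset (ℤ × ℤ)) (δ ε : ℝ)
    (hδ : ∀ᶠ m in atTop, ∀ᶠ n in atTop,
      dist1 (red (pos m R) (ρ m)) (red (pos n R) (ρ n)) ≤ δ) (hε : 0 < ε) :
    ∃ (D : ℕ) (A : Fin (e + 2) → Fin D → Fin D → Fin D → Fin D → ℂ), ∀ᶠ n in atTop,
      peps A n ≠ 0 ∧ dist1 (red (pos n R) (pureState (peps A n))) (red (pos n R) (ρ n))
        ≤ δ + ε := by
  classical
  obtain ⟨b, hb⟩ := exists_box R
  obtain ⟨K, hK⟩ : ∃ K : ℝ, K = ((e + 2 : ℕ) : ℝ) ^ Fintype.card R := ⟨_, rfl⟩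
  have hK0 : 0 < K := by rw [hK]; positivity
  -- the size of the blocks
  obtain ⟨m₀, hm₀⟩ := exists_nat_ge (2 * K * (4 * b + 4) / ε)
  obtain ⟨m, hm⟩ : ∃ m, m = m₀ + 2 * b + 1 := ⟨_, rfl⟩
  have hmb : 2 * b + 1 ≤ m := by omega
  have hm0 : 0 < m := by omega
  have hmR : (0 : ℝ) < m := by exact_mod_cast hm0
  have hmK : 2 * K * (4 * b + 4) ≤ ε * m := by
    have h7 : (m₀ : ℝ) ≤ m := by exact_mod_cast (by omega : m₀ ≤ m)
    rw [div_le_iff₀ hε] at hm₀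
    nlinarith
  -- the reference torus
  obtain ⟨n₁, hn₁, hδ₁⟩ := (hδ.and (eventually_ge_atTop (m + 2 * b))).exists.imp
    fun n h => And.intro h.2 h.1
  have hD₁ : Dens (red (fun q : Fin m × Fin m =>
      ((((q.1 : ℕ) : ZMod (n₁ + 1)), ((q.2 : ℕ) : ZMod (n₁ + 1))) : Tor n₁)) (ρ n₁)) := by
    refine h6.1 _ _ _ _ _ ?_ (hρ n₁).1
    rintro ⟨i, j⟩ ⟨i', j'⟩ h
    simp only [Prod.mk.injEq] at h
    have key : ∀ u v : Fin m, ((u : ℕ) : ZMod (n₁ + 1)) = ((v : ℕ) : ZMod (n₁ + 1)) → u = v := by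
      intro u v huv
      have h8 := congrArg ZMod.val huv
      rw [ZMod.val_natCast, ZMod.val_natCast, Nat.mod_eq_of_lt (by omega),
        Nat.mod_eq_of_lt (by omega)] at h8
      exact Fin.ext h8
    exact Prod.ext (key _ _ h.1) (key _ _ h.2)
  obtain ⟨χ, hχ1, hχ2, hχ3⟩ := h5 e m m hm0 hm0 _ hD₁
  obtain ⟨D, A, hA⟩ := h1 (e + 2) (m + 2) (2 * m + 1) (by omega) (by omega) (wt χ)
  refine ⟨D, A, ?_⟩
  obtain ⟨n₂, hn₂⟩ := (h2 (m + 2) (by omega)).2.2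
  obtain ⟨n₃, hn₃⟩ := (h2 (2 * m + 1) (by omega)).2.2
  obtain ⟨n₄, hn₄⟩ := h3 e m m hm0 hm0 χ hχ2 (Fintype.card R)
  filter_upwards [hδ₁, eventually_ge_atTop n₂, eventually_ge_atTop n₃, eventually_ge_atTop n₄,
    eventually_ge_atTop (2 * b)] with n hdn hn2 hn3 hn4 hnb
  have hWX := hn₂ n hn2
  have hWY := hn₃ n hn3
  obtain ⟨F, hF⟩ : ∃ F, F = walks (m + 2) n ×ˢ walks (2 * m + 1) n := ⟨_, rfl⟩
  have hFne : F.Nonempty := by rw [hF]; exact hWX.product hWY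
  have hFpos : (0 : ℝ) < F.card := by exact_mod_cast hFne.card_pos
  have hmem : ∀ t ∈ F, t.1 ∈ walks (m + 2) n ∧ t.2 ∈ walks (2 * m + 1) n := by
    intro t ht
    rw [hF] at ht
    exact mem_product.1 ht
  have hΨ : ∀ s, peps A n s = ∑ t ∈ F, Phi (wt χ) t.1 t.2 s := by
    intro s
    rw [hA, hF, sum_product]
  have hnorm : ∀ t ∈ F, ∑ s, ‖Phi (wt χ) t.1 t.2 s‖ ^ 2 = 1 := fun t ht =>
    (h4 e m m χ hχ1 n t.1 (hmem t ht).1 t.2 (hmem t ht).2).1
  have horth : ∀ t ∈ F, ∀ t' ∈ F, t ≠ t' → ∀ (s : Tor n → Fin (e + 2)) (y : R → Fin (e + 2)),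
      Phi (wt χ) t.1 t.2 s * conj (Phi (wt χ) t'.1 t'.2 (Function.extend (pos n R) y s)) = 0 := by
    intro t ht t' ht' hne s y
    by_contra hcon
    have ha := left_ne_zero_of_mul hcon
    have hb' := right_ne_zero_of_mul hcon
    rw [Ne, map_eq_zero_iff _ (RingHom.injective _)] at hb'
    have h9 := hn₄ n hn4 (univ.image fun r => (pos n R r).1) (univ.image fun r => (pos n R r).2)
      card_image_le card_image_le t.1 (hmem t ht).1 t'.1 (hmem t' ht').1 t.2 (hmem t ht).2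
      t'.2 (hmem t' ht').2 s _ ha hb' (by
        intro v hv
        refine (extend_off _ _ _ _ ?_).symm
        rintro ⟨r, rfl⟩
        exact hv ⟨mem_image.2 ⟨r, mem_univ _, rfl⟩, mem_image.2 ⟨r, mem_univ _, rfl⟩⟩)
    exact hne (Prod.ext h9.1 h9.2)
  have hN := norm_sup F (fun t => Phi (wt χ) t.1 t.2) (peps A n) hΨ hnorm (by
    intro t ht t' ht' hne s
    have := horth t ht t' ht' hne s (fun r => s (pos n R r))
    rwa [extend_self] at this)
  refine ⟨?_, ?_⟩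
  · intro h0
    rw [h0] at hN
    simp only [Pi.zero_apply, norm_zero] at hN
    simp only [ne_eq, OfNat.ofNat_ne_zero, not_false_eq_true, zero_pow, sum_const_zero] at hN
    linarith
  have hredΨ : red (pos n R) (pureState (peps A n)) = fun x y => ((F.card : ℂ))⁻¹ *
      ∑ t ∈ F, red (pos n R) (outer (Phi (wt χ) t.1 t.2)) x y := by
    funext x y
    exact red_sup (pos n R) F (fun t => Phi (wt χ) t.1 t.2) (peps A n) hΨ hnorm horth x y
  rw [hredΨ]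
  -- the reference matrix
  have hpi₁ : Function.Injective (pos n₁ R) := pos_inj n₁ b R hb (by omega)
  have hpi : Function.Injective (pos n R) := pos_inj n b R hb hnb
  have hKN : ∑ x, ∑ y, ‖red (pos n₁ R) (ρ n₁) x y‖ ≤ K := by
    rw [hK]
    exact h6.2.1 _ _ _ (h6.1 _ _ _ _ _ hpi₁ (hρ n₁).1)
  have hKt : ∀ t ∈ F, dist1 (red (pos n R) (outer (Phi (wt χ) t.1 t.2)))
      (red (pos n₁ R) (ρ n₁)) ≤ 2 * K := by
    intro t ht
    have h10 : ∑ x, ∑ y, ‖red (pos n R) (outer (Phi (wt χ) t.1 t.2)) x y‖ ≤ K := by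
      rw [hK]
      exact h6.2.1 _ _ _ (h6.1 _ _ _ _ _ hpi (dens_outer _ (hnorm t ht)))
    refine (dist1_le_add _ _).trans ?_
    linarith
  obtain ⟨BX, hBX⟩ : ∃ BX, BX = (univ : Finset (Fin (m + 2 + 1))).filter
      (fun i : Fin (m + 2 + 1) => ¬ (2 ≤ (i : ℕ) ∧ (i : ℕ) + 2 * b ≤ m + 1)) := ⟨_, rfl⟩
  obtain ⟨BY, hBY⟩ : ∃ BY, BY = (univ : Finset (Fin (2 * m + 1 + 1))).filter
      (fun j : Fin (2 * m + 1 + 1) => ¬ ((1 ≤ (j : ℕ) ∧ (j : ℕ) + 2 * b ≤ m) ∨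
        (m + 1 ≤ (j : ℕ) ∧ (j : ℕ) + 2 * b ≤ 2 * m))) := ⟨_, rfl⟩
  have hcBX : (BX.card : ℝ) ≤ 2 * b + 3 := by
    rw [hBX]
    exact_mod_cast card_bx m b hmb
  have hcBY : (BY.card : ℝ) ≤ 4 * b + 2 := by
    rw [hBY]
    exact_mod_cast card_by m b hmb
  obtain ⟨a, ha⟩ : ∃ a : ZMod (n + 1), a = -(b : ZMod (n + 1)) := ⟨_, rfl⟩
  have hgood : ∀ t ∈ F, ¬ (t.1 a ∈ BX ∨ t.2 a ∈ BY) →
      dist1 (red (pos n R) (outer (Phi (wt χ) t.1 t.2))) (red (pos n₁ R) (ρ n₁)) = 0 := by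
    intro t ht hbad
    rw [not_or] at hbad
    have hb1 := hbad.1
    have hb2 := hbad.2
    rw [hBX, mem_filter, not_and, not_not] at hb1
    rw [hBY, mem_filter, not_and, not_not] at hb2
    have hb1 := hb1 (mem_univ _)
    have hb2 := hb2 (mem_univ _)
    rw [ha] at hb1 hb2
    have h11 : red (pos n R) (outer (Phi (wt χ) t.1 t.2)) = red (pos n₁ R) (ρ n₁) := by
      funext x y
      exact red_good h2 h4 h6 hb (by omega) hnb (hρ n₁).2 hχ1 hχ3 (hmem t ht).1 (hmem t ht).2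
        hb1.1 hb1.2 hb2 x y
    rw [h11, dist1_self]
  have hsum : ∑ t ∈ F, dist1 (red (pos n R) (outer (Phi (wt χ) t.1 t.2)))
      (red (pos n₁ R) (ρ n₁)) ≤ 2 * K * ((F.filter fun t => t.1 a ∈ BX ∨ t.2 a ∈ BY).card : ℝ) := by
    rw [← sum_filter_add_sum_filter_not F (fun t => t.1 a ∈ BX ∨ t.2 a ∈ BY)]
    have h12 : ∑ t ∈ F.filter (fun t => ¬ (t.1 a ∈ BX ∨ t.2 a ∈ BY)),
        dist1 (red (pos n R) (outer (Phi (wt χ) t.1 t.2))) (red (pos n₁ R) (ρ n₁)) = 0 :=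
      sum_eq_zero fun t ht => hgood t (mem_filter.1 ht).1 (mem_filter.1 ht).2
    rw [h12, add_zero]
    calc ∑ t ∈ F.filter (fun t => t.1 a ∈ BX ∨ t.2 a ∈ BY),
        dist1 (red (pos n R) (outer (Phi (wt χ) t.1 t.2))) (red (pos n₁ R) (ρ n₁))
        ≤ ∑ t ∈ F.filter (fun t => t.1 a ∈ BX ∨ t.2 a ∈ BY), 2 * K :=
          sum_le_sum fun t ht => hKt t (mem_filter.1 ht).1
      _ = _ := by
          rw [sum_const, nsmul_eq_mul]
          ring
  -- the number of bad tilings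
  have hcount : (m : ℝ) * ((F.filter fun t => t.1 a ∈ BX ∨ t.2 a ∈ BY).card : ℝ)
      ≤ (4 * b + 4) * F.card := by
    have hsub : F.filter (fun t => t.1 a ∈ BX ∨ t.2 a ∈ BY) ⊆
        ((walks (m + 2) n).filter (fun X => X a ∈ BX) ×ˢ walks (2 * m + 1) n) ∪
        (walks (m + 2) n ×ˢ (walks (2 * m + 1) n).filter (fun Y => Y a ∈ BY)) := by
      intro t ht
      have ht1 := (mem_filter.1 ht).1
      rw [mem_union, mem_product, mem_product, mem_filter, mem_filter]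
      rcases (mem_filter.1 ht).2 with h13 | h13
      · exact Or.inl ⟨⟨(hmem t ht1).1, h13⟩, (hmem t ht1).2⟩
      · exact Or.inr ⟨(hmem t ht1).1, ⟨(hmem t ht1).2, h13⟩⟩
    have h14 := (card_le_card hsub).trans (card_union_le _ _)
    rw [card_product, card_product] at h14
    have h15 : ((F.filter fun t => t.1 a ∈ BX ∨ t.2 a ∈ BY).card : ℝ)
        ≤ (((walks (m + 2) n).filter (fun X => X a ∈ BX)).card : ℝ) * (walks (2 * m + 1) n).card
          + ((walks (m + 2) n).card : ℝ)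
            * (((walks (2 * m + 1) n).filter (fun Y => Y a ∈ BY)).card : ℝ) := by
      exact_mod_cast h14
    have h16 := card_bad h2 (N := m + 2) (by omega) a BX
    have h17 := card_bad h2 (N := 2 * m + 1) (by omega) a BY
    have hFc : (F.card : ℝ) = ((walks (m + 2) n).card : ℝ) * (walks (2 * m + 1) n).card := by
      rw [hF, card_product]
      push_cast
      ring
    obtain ⟨p, hp⟩ : ∃ p : ℝ, p = ((walks (m + 2) n).card : ℝ) := ⟨_, rfl⟩
    obtain ⟨q, hq⟩ : ∃ q : ℝ, q = ((walks (2 * m + 1) n).card : ℝ) := ⟨_, rfl⟩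
    obtain ⟨p', hp'⟩ : ∃ p' : ℝ, p' = (((walks (m + 2) n).filter (fun X => X a ∈ BX)).card : ℝ) :=
      ⟨_, rfl⟩
    obtain ⟨q', hq'⟩ : ∃ q' : ℝ,
      q' = (((walks (2 * m + 1) n).filter (fun Y => Y a ∈ BY)).card : ℝ) := ⟨_, rfl⟩
    rw [← hp', ← hp] at h16
    rw [← hq', ← hq] at h17
    rw [← hp', ← hp, ← hq, ← hq'] at h15
    rw [hFc, ← hp, ← hq]
    have hp0 : 0 ≤ p := by rw [hp]; positivity
    have hq0 : 0 ≤ q := by rw [hq]; positivity
    have hp'0 : 0 ≤ p' := by rw [hp']; positivity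
    have hq'0 : 0 ≤ q' := by rw [hq']; positivity
    push_cast at h16 h17
    have hA1 : (m : ℝ) * p' ≤ (2 * b + 3) * p := by
      have : ((BX.card : ℝ)) * p ≤ (2 * b + 3) * p := mul_le_mul_of_nonneg_right hcBX hp0
      nlinarith
    have hA2 : (2 * m : ℝ) * q' ≤ (4 * b + 2) * q := by
      have : ((BY.card : ℝ)) * q ≤ (4 * b + 2) * q := mul_le_mul_of_nonneg_right hcBY hq0
      nlinarith
    calc (m : ℝ) * ((F.filter fun t => t.1 a ∈ BX ∨ t.2 a ∈ BY).card : ℝ)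
        ≤ (m : ℝ) * (p' * q + p * q') := mul_le_mul_of_nonneg_left h15 hmR.le
      _ = (m * p') * q + p * (m * q') := by ring
      _ ≤ ((2 * b + 3) * p) * q + p * ((2 * b + 1) * q) := by
          refine add_le_add (mul_le_mul_of_nonneg_right hA1 hq0) (mul_le_mul_of_nonneg_left ?_ hp0)
          linarith
      _ = (4 * b + 4) * (p * q) := by ring
  have hfin : dist1 (fun x y => ((F.card : ℂ))⁻¹ *
      ∑ t ∈ F, red (pos n R) (outer (Phi (wt χ) t.1 t.2)) x y) (red (pos n₁ R) (ρ n₁)) ≤ ε := by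
    refine (dist1_avg F hFne (fun t => red (pos n R) (outer (Phi (wt χ) t.1 t.2)))
      (red (pos n₁ R) (ρ n₁))).trans ?_
    rw [inv_mul_le_iff₀ hFpos]
    refine hsum.trans ?_
    obtain ⟨c, hc⟩ : ∃ c : ℝ, c = ((F.filter fun t => t.1 a ∈ BX ∨ t.2 a ∈ BY).card : ℝ) :=
      ⟨_, rfl⟩
    rw [← hc] at hcount ⊢
    have h18 : (m : ℝ) * (2 * K * c) ≤ m * (F.card * ε) := by
      calc (m : ℝ) * (2 * K * c) = 2 * K * (m * c) := by ring
        _ ≤ 2 * K * ((4 * b + 4) * F.card) := mul_le_mul_of_nonneg_left hcount (by positivity)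
        _ = (2 * K * (4 * b + 4)) * F.card := by ring
        _ ≤ (ε * m) * F.card := mul_le_mul_of_nonneg_right hmK hFpos.le
        _ = m * (F.card * ε) := by ring
    exact le_of_mul_le_mul_left h18 hmR
  have htri := dist1_tri (fun x y => ((F.card : ℂ))⁻¹ *
      ∑ t ∈ F, red (pos n R) (outer (Phi (wt χ) t.1 t.2)) x y) (red (pos n₁ R) (ρ n₁))
      (red (pos n R) (ρ n))
  linarith

lemma one_of_tr {S : Type} [Fintype S] [DecidableEq S] {ρ : (S → Fin 1) → (S → Fin 1) → ℂ}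
    (h : ∑ c, ρ c c = 1) (c c' : S → Fin 1) : ρ c c' = 1 := by
  rw [Fintype.sum_unique] at h
  rwa [Subsingleton.elim c default, Subsingleton.elim c' default]

lemma red_one {S T : Type} [Fintype S] [DecidableEq S] (ι : T → S)
    {ρ : (S → Fin 1) → (S → Fin 1) → ℂ} (h : ∑ c, ρ c c = 1) (x y : T → Fin 1) :
    red ι ρ x y = 1 := by
  unfold red
  rw [Fintype.sum_unique, if_pos fun r => Subsingleton.elim _ _]
  exact one_of_tr h _ _

theorem main (h1 : StmPeps) (h2 : StmWalk) (h3 : StmOrth) (h4 : StmMarg) (h5 : StmChi)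
    (h6 : StmRed) : StmMain := by
  intro d ρ hρ R δ ε hδ hε
  match d with
  | 0 =>
    exfalso
    have h := (hρ 0).1.tr
    have : IsEmpty (Tor 0 → Fin 0) := ⟨fun c => (c (0, 0)).elim0⟩
    rw [Fintype.sum_empty] at h
    exact zero_ne_one h
  | 1 =>
    refine ⟨1, fun _ _ _ _ _ => 1, ?_⟩
    have hδ0 : 0 ≤ δ := by
      obtain ⟨m, hm⟩ := hδ.exists
      obtain ⟨n, hn⟩ := hm.exists
      exact (dist1_nonneg _ _).trans hn
    refine Eventually.of_forall fun n => ?_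
    have hp : ∀ s, peps (fun (_ : Fin 1) (_ _ _ _ : Fin 1) => (1 : ℂ)) n s = 1 := by
      intro s
      unfold peps
      rw [Fintype.sum_unique, Fintype.sum_unique, prod_const_one]
    refine ⟨fun h0 => ?_, ?_⟩
    · have h := hp fun _ => 0
      rw [h0] at h
      exact zero_ne_one h
    · have ht : ∑ c, pureState (peps (fun (_ : Fin 1) (_ _ _ _ : Fin 1) => (1 : ℂ)) n) c c = 1 := by
        rw [Fintype.sum_unique]
        unfold pureState
        rw [Fintype.sum_unique, hp]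
        simp
      have h0 : dist1 (red (pos n R) (pureState (peps (fun (_ : Fin 1) (_ _ _ _ : Fin 1) =>
          (1 : ℂ)) n))) (red (pos n R) (ρ n)) = 0 := by
        unfold dist1
        refine sum_eq_zero fun x _ => sum_eq_zero fun y _ => ?_
        rw [red_one _ ht, red_one _ (hρ n).1.tr, sub_self, norm_zero]
      rw [h0]
      linarith
  | e + 2 => exact main2 h1 h2 h3 h4 h5 h6 e ρ hρ R δ ε hδ hε

end Pool.Agent.Q85.PP
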