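import Pool.Agent.Q85.PP.All

/-!
Project PP (helper85): the theorem with the explicit bound `exp (C / ε ^ 2)` for the bond dimension,
where `C` depends only on the local dimension and on the region.
-/

set_option autoImplicit false

open Finset Filter
open scoped ComplexConjugate ComplexOrder

namespace Pool.Agent.Q85.PP

/-- The theorem for one torus: the reduced density matrix of a translation invariant density matrix
on one sufficiently large torus is approximated by one translation invariant PEPS on all large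
tori, and the bond dimension depends only on `d`, `R` and `ε`. -/
def StmCore : Prop := ∀ (d : ℕ) (R : Finset (ℤ × ℤ)), ∃ C : ℝ, ∀ ε : ℝ, 0 < ε → ε ≤ 1 →
  ∃ D : ℕ, (D : ℝ) ≤ Real.exp (C / ε ^ 2) ∧
    ∀ n₁ : ℕ, C / ε ≤ n₁ → ∀ ρ : (Tor n₁ → Fin d) → (Tor n₁ → Fin d) → ℂ, Dens ρ → TInv ρ →
      ∃ A : Fin d → Fin D → Fin D → Fin D → Fin D → ℂ, ∀ᶠ n in Filter.atTop,
        peps A n ≠ 0 ∧
          dist1 (red (pos n R) (pureState (peps A n))) (red (pos n₁ R) ρ) ≤ ε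

/-- The theorem for families. -/
def StmMainF : Prop := ∀ (d : ℕ) (R : Finset (ℤ × ℤ)), ∃ C : ℝ, ∀ ε : ℝ, 0 < ε → ε ≤ 1 →
  ∃ D : ℕ, (D : ℝ) ≤ Real.exp (C / ε ^ 2) ∧
    ∀ l : Filter ℕ, l.NeBot → l ≤ Filter.atTop →
    ∀ ρ : ∀ n, (Tor n → Fin d) → (Tor n → Fin d) → ℂ, (∀ᶠ n in l, Dens (ρ n) ∧ TInv (ρ n)) →
    ∀ δ : ℝ, (∀ᶠ m in l, ∀ᶠ n in l, dist1 (red (pos m R) (ρ m)) (red (pos n R) (ρ n)) ≤ δ) →
      ∃ A : Fin d → Fin D → Fin D → Fin D → Fin D → ℂ, (∀ᶠ n in Filter.atTop, peps A n ≠ 0) ∧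
        ∀ᶠ n in l, dist1 (red (pos n R) (pureState (peps A n))) (red (pos n R) (ρ n)) ≤ δ + ε

open Pool.Agent.Q68.PP in
/-- PP-1 with the bond dimension. -/
theorem peps_card (d N M : ℕ) (hN : 0 < N) (hM : 0 < M)
    (w : Fin (N + 1) → Fin (M + 1) → (Fin N × Fin M → Fin d) → ℂ) :
    ∃ A : Fin d → Fin (Fintype.card (St d N M)) → Fin (Fintype.card (St d N M)) →
      Fin (Fintype.card (St d N M)) → Fin (Fintype.card (St d N M)) → ℂ,
      ∀ (n : ℕ) (s : Tor n → Fin d),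
        peps A n s = ∑ X ∈ walks N n, ∑ Y ∈ walks M n, Phi w X Y s := by
  classical
  let e : St d N M ≃ Fin (Fintype.card (St d N M)) := Fintype.equivFin _
  refine ⟨fun s l r dn up =>
    Ast hN hM w s (e.symm l) (e.symm r) (e.symm dn) (e.symm up), ?_⟩
  intro n s
  rw [← sum_good hN hM s w]
  unfold peps
  have hre : ∀ F : (Tor n → Fin (Fintype.card (St d N M))) → ℂ,
      ∑ a, F a = ∑ a : Tor n → St d N M, F (fun v => e (a v)) := by
    intro F
    exact (Fintype.sum_equiv (Equiv.arrowCongr (Equiv.refl (Tor n)) e) _ _ (fun a => rfl)).symm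
  rw [hre]
  refine Finset.sum_congr rfl (fun a _ => ?_)
  rw [hre]
  simp only [Equiv.symm_apply_apply, Ast]
  simp only [Finset.prod_ite_zero, Finset.mem_univ, true_implies]
  rw [Finset.sum_eq_single a]
  · congr 1
    apply propext
    constructor
    · intro h v
      exact (h v).2
    · intro h v
      exact ⟨rfl, h v⟩
  · intro b _ hb
    rw [if_neg]
    intro h
    apply hb
    funext v
    exact (h v).1.symm
  · intro h
    exact absurd (Finset.mem_univ a) h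

set_option maxHeartbeats 1600000 in
theorem main3 (h2 : StmWalk) (h3 : StmOrth) (h4 : StmMarg) (h5 : StmChi)
    (h6 : StmRed) (e b m : ℕ) (R : Finset (ℤ × ℤ))
    (hb : ∀ p ∈ R, -(b : ℤ) ≤ p.1 ∧ p.1 ≤ b ∧ -(b : ℤ) ≤ p.2 ∧ p.2 ≤ b) (K : ℝ)
    (hK : K = ((e + 2 : ℕ) : ℝ) ^ Fintype.card R) (ε : ℝ) (hmb : 2 * b + 1 ≤ m)
    (hmK : 2 * K * (4 * b + 4) ≤ ε * m)
    (n₁ : ℕ) (hn₁ : m + 2 * b ≤ n₁)
    (ρ : (Tor n₁ → Fin (e + 2)) → (Tor n₁ → Fin (e + 2)) → ℂ) (hρ : Dens ρ) (hρt : TInv ρ) :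
    ∃ A : Fin (e + 2) → Fin (Fintype.card (Pool.Agent.Q68.PP.St (e + 2) (m + 2) (2 * m + 1))) →
      Fin (Fintype.card (Pool.Agent.Q68.PP.St (e + 2) (m + 2) (2 * m + 1))) →
      Fin (Fintype.card (Pool.Agent.Q68.PP.St (e + 2) (m + 2) (2 * m + 1))) →
      Fin (Fintype.card (Pool.Agent.Q68.PP.St (e + 2) (m + 2) (2 * m + 1))) → ℂ, ∀ᶠ n in atTop,
      peps A n ≠ 0 ∧ dist1 (red (pos n R) (pureState (peps A n))) (red (pos n₁ R) ρ) ≤ ε := by
  classical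
  have hK0 : 0 < K := by rw [hK]; positivity
  have hm0 : 0 < m := by omega
  have hmR : (0 : ℝ) < m := by exact_mod_cast hm0
  have hD₁ : Dens (red (fun q : Fin m × Fin m =>
      ((((q.1 : ℕ) : ZMod (n₁ + 1)), ((q.2 : ℕ) : ZMod (n₁ + 1))) : Tor n₁)) ρ) := by
    refine h6.1 _ _ _ _ _ ?_ hρ
    rintro ⟨i, j⟩ ⟨i', j'⟩ h
    simp only [Prod.mk.injEq] at h
    have key : ∀ u v : Fin m, ((u : ℕ) : ZMod (n₁ + 1)) = ((v : ℕ) : ZMod (n₁ + 1)) → u = v := by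
      intro u v huv
      have h8 := congrArg ZMod.val huv
      rw [ZMod.val_natCast, ZMod.val_natCast, Nat.mod_eq_of_lt (by omega),
        Nat.mod_eq_of_lt (by omega)] at h8
      exact Fin.ext h8
    exact Prod.ext (key _ _ h.1) (key _ _ h.2)
  obtain ⟨χ, hχ1, hχ2, hχ3⟩ := h5 e m m hm0 hm0 _ hD₁
  obtain ⟨A, hA⟩ := peps_card (e + 2) (m + 2) (2 * m + 1) (by omega) (by omega) (wt χ)
  refine ⟨A, ?_⟩
  obtain ⟨n₂, hn₂⟩ := (h2 (m + 2) (by omega)).2.2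
  obtain ⟨n₃, hn₃⟩ := (h2 (2 * m + 1) (by omega)).2.2
  obtain ⟨n₄, hn₄⟩ := h3 e m m hm0 hm0 χ hχ2 (Fintype.card R)
  filter_upwards [eventually_ge_atTop n₂, eventually_ge_atTop n₃, eventually_ge_atTop n₄,
    eventually_ge_atTop (2 * b)] with n hn2 hn3 hn4 hnb
  have hWX := hn₂ n hn2
  have hWY := hn₃ n hn3
  obtain ⟨F, hF⟩ : ∃ F, F = walks (m + 2) n ×ˢ walks (2 * m + 1) n := ⟨_, rfl⟩
  have hFne : F.Nonempty := by rw [hF]; exact hWX.product hWY
  have hFpos : (0 : ℝ) < F.card := by exact_mod_cast hFne.card_pos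
  have hmem : ∀ t ∈ F, t.1 ∈ walks (m + 2) n ∧ t.2 ∈ walks (2 * m + 1) n := by
    intro t ht
    rw [hF] at ht
    exact mem_product.1 ht
  have hΨ : ∀ s, peps A n s = ∑ t ∈ F, Phi (wt χ) t.1 t.2 s := by
    intro s
    rw [hA, hF, sum_product]
  have hnorm : ∀ t ∈ F, ∑ s, ‖Phi (wt χ) t.1 t.2 s‖ ^ 2 = 1 := fun t ht =>
    (h4 e m m χ hχ1 n t.1 (hmem t ht).1 t.2 (hmem t ht).2).1
  have horth : ∀ t ∈ F, ∀ t' ∈ F, t ≠ t' → ∀ (s : Tor n → Fin (e + 2)) (y : R → Fin (e + 2)),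
      Phi (wt χ) t.1 t.2 s * conj (Phi (wt χ) t'.1 t'.2 (Function.extend (pos n R) y s)) = 0 := by
    intro t ht t' ht' hne s y
    by_contra hcon
    have ha := left_ne_zero_of_mul hcon
    have hb' := right_ne_zero_of_mul hcon
    rw [Ne, map_eq_zero_iff _ (RingHom.injective _)] at hb'
    have h9 := hn₄ n hn4 (univ.image fun r => (pos n R r).1) (univ.image fun r => (pos n R r).2)
      card_image_le card_image_le t.1 (hmem t ht).1 t'.1 (hmem t' ht').1 t.2 (hmem t ht).2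
      t'.2 (hmem t' ht').2 s _ ha hb' (by
        intro v hv
        refine (extend_off _ _ _ _ ?_).symm
        rintro ⟨r, rfl⟩
        exact hv ⟨mem_image.2 ⟨r, mem_univ _, rfl⟩, mem_image.2 ⟨r, mem_univ _, rfl⟩⟩)
    exact hne (Prod.ext h9.1 h9.2)
  have hN := norm_sup F (fun t => Phi (wt χ) t.1 t.2) (peps A n) hΨ hnorm (by
    intro t ht t' ht' hne s
    have := horth t ht t' ht' hne s (fun r => s (pos n R r))
    rwa [extend_self] at this)
  refine ⟨?_, ?_⟩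
  · intro h0
    rw [h0] at hN
    simp only [Pi.zero_apply, norm_zero] at hN
    simp only [ne_eq, OfNat.ofNat_ne_zero, not_false_eq_true, zero_pow, sum_const_zero] at hN
    linarith
  have hredΨ : red (pos n R) (pureState (peps A n)) = fun x y => ((F.card : ℂ))⁻¹ *
      ∑ t ∈ F, red (pos n R) (outer (Phi (wt χ) t.1 t.2)) x y := by
    funext x y
    exact red_sup (pos n R) F (fun t => Phi (wt χ) t.1 t.2) (peps A n) hΨ hnorm horth x y
  rw [hredΨ]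
  -- the reference matrix
  have hpi₁ : Function.Injective (pos n₁ R) := pos_inj n₁ b R hb (by omega)
  have hpi : Function.Injective (pos n R) := pos_inj n b R hb hnb
  have hKN : ∑ x, ∑ y, ‖red (pos n₁ R) ρ x y‖ ≤ K := by
    rw [hK]
    exact h6.2.1 _ _ _ (h6.1 _ _ _ _ _ hpi₁ hρ)
  have hKt : ∀ t ∈ F, dist1 (red (pos n R) (outer (Phi (wt χ) t.1 t.2)))
      (red (pos n₁ R) ρ) ≤ 2 * K := by
    intro t ht
    have h10 : ∑ x, ∑ y, ‖red (pos n R) (outer (Phi (wt χ) t.1 t.2)) x y‖ ≤ K := by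
      rw [hK]
      exact h6.2.1 _ _ _ (h6.1 _ _ _ _ _ hpi (dens_outer _ (hnorm t ht)))
    refine (dist1_le_add _ _).trans ?_
    linarith
  obtain ⟨BX, hBX⟩ : ∃ BX, BX = (univ : Finset (Fin (m + 2 + 1))).filter
      (fun i : Fin (m + 2 + 1) => ¬ (2 ≤ (i : ℕ) ∧ (i : ℕ) + 2 * b ≤ m + 1)) := ⟨_, rfl⟩
  obtain ⟨BY, hBY⟩ : ∃ BY, BY = (univ : Finset (Fin (2 * m + 1 + 1))).filter
      (fun j : Fin (2 * m + 1 + 1) => ¬ ((1 ≤ (j : ℕ) ∧ (j : ℕ) + 2 * b ≤ m) ∨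
        (m + 1 ≤ (j : ℕ) ∧ (j : ℕ) + 2 * b ≤ 2 * m))) := ⟨_, rfl⟩
  have hcBX : (BX.card : ℝ) ≤ 2 * b + 3 := by
    rw [hBX]
    exact_mod_cast card_bx m b hmb
  have hcBY : (BY.card : ℝ) ≤ 4 * b + 2 := by
    rw [hBY]
    exact_mod_cast card_by m b hmb
  obtain ⟨a, ha⟩ : ∃ a : ZMod (n + 1), a = -(b : ZMod (n + 1)) := ⟨_, rfl⟩
  have hgood : ∀ t ∈ F, ¬ (t.1 a ∈ BX ∨ t.2 a ∈ BY) →
      dist1 (red (pos n R) (outer (Phi (wt χ) t.1 t.2))) (red (pos n₁ R) ρ) = 0 := by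
    intro t ht hbad
    rw [not_or] at hbad
    have hb1 := hbad.1
    have hb2 := hbad.2
    rw [hBX, mem_filter, not_and, not_not] at hb1
    rw [hBY, mem_filter, not_and, not_not] at hb2
    have hb1 := hb1 (mem_univ _)
    have hb2 := hb2 (mem_univ _)
    rw [ha] at hb1 hb2
    have h11 : red (pos n R) (outer (Phi (wt χ) t.1 t.2)) = red (pos n₁ R) ρ := by
      funext x y
      exact red_good h2 h4 h6 hb (by omega) hnb hρt hχ1 hχ3 (hmem t ht).1 (hmem t ht).2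
        hb1.1 hb1.2 hb2 x y
    rw [h11, dist1_self]
  have hsum : ∑ t ∈ F, dist1 (red (pos n R) (outer (Phi (wt χ) t.1 t.2)))
      (red (pos n₁ R) ρ) ≤ 2 * K * ((F.filter fun t => t.1 a ∈ BX ∨ t.2 a ∈ BY).card : ℝ) := by
    rw [← sum_filter_add_sum_filter_not F (fun t => t.1 a ∈ BX ∨ t.2 a ∈ BY)]
    have h12 : ∑ t ∈ F.filter (fun t => ¬ (t.1 a ∈ BX ∨ t.2 a ∈ BY)),
        dist1 (red (pos n R) (outer (Phi (wt χ) t.1 t.2))) (red (pos n₁ R) ρ) = 0 :=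
      sum_eq_zero fun t ht => hgood t (mem_filter.1 ht).1 (mem_filter.1 ht).2
    rw [h12, add_zero]
    calc ∑ t ∈ F.filter (fun t => t.1 a ∈ BX ∨ t.2 a ∈ BY),
        dist1 (red (pos n R) (outer (Phi (wt χ) t.1 t.2))) (red (pos n₁ R) ρ)
        ≤ ∑ t ∈ F.filter (fun t => t.1 a ∈ BX ∨ t.2 a ∈ BY), 2 * K :=
          sum_le_sum fun t ht => hKt t (mem_filter.1 ht).1
      _ = _ := by
          rw [sum_const, nsmul_eq_mul]
          ring
  -- the number of bad tilings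
  have hcount : (m : ℝ) * ((F.filter fun t => t.1 a ∈ BX ∨ t.2 a ∈ BY).card : ℝ)
      ≤ (4 * b + 4) * F.card := by
    have hsub : F.filter (fun t => t.1 a ∈ BX ∨ t.2 a ∈ BY) ⊆
        ((walks (m + 2) n).filter (fun X => X a ∈ BX) ×ˢ walks (2 * m + 1) n) ∪
        (walks (m + 2) n ×ˢ (walks (2 * m + 1) n).filter (fun Y => Y a ∈ BY)) := by
      intro t ht
      have ht1 := (mem_filter.1 ht).1
      rw [mem_union, mem_product, mem_product, mem_filter, mem_filter]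
      rcases (mem_filter.1 ht).2 with h13 | h13
      · exact Or.inl ⟨⟨(hmem t ht1).1, h13⟩, (hmem t ht1).2⟩
      · exact Or.inr ⟨(hmem t ht1).1, ⟨(hmem t ht1).2, h13⟩⟩
    have h14 := (card_le_card hsub).trans (card_union_le _ _)
    rw [card_product, card_product] at h14
    have h15 : ((F.filter fun t => t.1 a ∈ BX ∨ t.2 a ∈ BY).card : ℝ)
        ≤ (((walks (m + 2) n).filter (fun X => X a ∈ BX)).card : ℝ) * (walks (2 * m + 1) n).card
          + ((walks (m + 2) n).card : ℝ)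
            * (((walks (2 * m + 1) n).filter (fun Y => Y a ∈ BY)).card : ℝ) := by
      exact_mod_cast h14
    have h16 := card_bad h2 (N := m + 2) (by omega) a BX
    have h17 := card_bad h2 (N := 2 * m + 1) (by omega) a BY
    have hFc : (F.card : ℝ) = ((walks (m + 2) n).card : ℝ) * (walks (2 * m + 1) n).card := by
      rw [hF, card_product]
      push_cast
      ring
    obtain ⟨p, hp⟩ : ∃ p : ℝ, p = ((walks (m + 2) n).card : ℝ) := ⟨_, rfl⟩
    obtain ⟨q, hq⟩ : ∃ q : ℝ, q = ((walks (2 * m + 1) n).card : ℝ) := ⟨_, rfl⟩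
    obtain ⟨p', hp'⟩ : ∃ p' : ℝ, p' = (((walks (m + 2) n).filter (fun X => X a ∈ BX)).card : ℝ) :=
      ⟨_, rfl⟩
    obtain ⟨q', hq'⟩ : ∃ q' : ℝ,
      q' = (((walks (2 * m + 1) n).filter (fun Y => Y a ∈ BY)).card : ℝ) := ⟨_, rfl⟩
    rw [← hp', ← hp] at h16
    rw [← hq', ← hq] at h17
    rw [← hp', ← hp, ← hq, ← hq'] at h15
    rw [hFc, ← hp, ← hq]
    have hp0 : 0 ≤ p := by rw [hp]; positivity
    have hq0 : 0 ≤ q := by rw [hq]; positivity
    have hp'0 : 0 ≤ p' := by rw [hp']; positivity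
    have hq'0 : 0 ≤ q' := by rw [hq']; positivity
    push_cast at h16 h17
    have hA1 : (m : ℝ) * p' ≤ (2 * b + 3) * p := by
      have : ((BX.card : ℝ)) * p ≤ (2 * b + 3) * p := mul_le_mul_of_nonneg_right hcBX hp0
      nlinarith
    have hA2 : (2 * m : ℝ) * q' ≤ (4 * b + 2) * q := by
      have : ((BY.card : ℝ)) * q ≤ (4 * b + 2) * q := mul_le_mul_of_nonneg_right hcBY hq0
      nlinarith
    calc (m : ℝ) * ((F.filter fun t => t.1 a ∈ BX ∨ t.2 a ∈ BY).card : ℝ)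
        ≤ (m : ℝ) * (p' * q + p * q') := mul_le_mul_of_nonneg_left h15 hmR.le
      _ = (m * p') * q + p * (m * q') := by ring
      _ ≤ ((2 * b + 3) * p) * q + p * ((2 * b + 1) * q) := by
          refine add_le_add (mul_le_mul_of_nonneg_right hA1 hq0) (mul_le_mul_of_nonneg_left ?_ hp0)
          linarith
      _ = (4 * b + 4) * (p * q) := by ring
  have hfin : dist1 (fun x y => ((F.card : ℂ))⁻¹ *
      ∑ t ∈ F, red (pos n R) (outer (Phi (wt χ) t.1 t.2)) x y) (red (pos n₁ R) ρ) ≤ ε := by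
    refine (dist1_avg F hFne (fun t => red (pos n R) (outer (Phi (wt χ) t.1 t.2)))
      (red (pos n₁ R) ρ)).trans ?_
    rw [inv_mul_le_iff₀ hFpos]
    refine hsum.trans ?_
    obtain ⟨c, hc⟩ : ∃ c : ℝ, c = ((F.filter fun t => t.1 a ∈ BX ∨ t.2 a ∈ BY).card : ℝ) :=
      ⟨_, rfl⟩
    rw [← hc] at hcount ⊢
    have h18 : (m : ℝ) * (2 * K * c) ≤ m * (F.card * ε) := by
      calc (m : ℝ) * (2 * K * c) = 2 * K * (m * c) := by ring
        _ ≤ 2 * K * ((4 * b + 4) * F.card) := mul_le_mul_of_nonneg_left hcount (by positivity)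
        _ = (2 * K * (4 * b + 4)) * F.card := by ring
        _ ≤ (ε * m) * F.card := mul_le_mul_of_nonneg_right hmK hFpos.le
        _ = m * (F.card * ε) := by ring
    exact le_of_mul_le_mul_left h18 hmR
  exact hfin


lemma card_le (e m : ℕ) :
    ((Fintype.card (Pool.Agent.Q68.PP.St (e + 2) (m + 2) (2 * m + 1)) : ℕ) : ℝ)
      ≤ Real.exp (2 * (2 + Real.log (e + 2)) * ((m : ℝ) + 2) ^ 2) := by
  have h1 : Fintype.card (Pool.Agent.Q68.PP.St (e + 2) (m + 2) (2 * m + 1))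
      = (m + 2 + 1) * ((2 * m + 1 + 1) * (e + 2) ^ ((m + 2) * (2 * m + 1))) := by
    simp [Pool.Agent.Q68.PP.St]
  rw [h1]
  push_cast
  have hl : 0 ≤ Real.log ((e : ℝ) + 2) := Real.log_nonneg (by linarith [(Nat.cast_nonneg e : (0:ℝ) ≤ e)])
  have hm : (0 : ℝ) ≤ m := Nat.cast_nonneg m
  have h2 : (m : ℝ) + 2 + 1 ≤ Real.exp (m + 2) := by
    have := Real.add_one_le_exp ((m : ℝ) + 2)
    linarith
  have h3 : 2 * (m : ℝ) + 1 + 1 ≤ Real.exp (2 * m + 1) := by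
    have := Real.add_one_le_exp (2 * (m : ℝ) + 1)
    linarith
  have h4 : ((e : ℝ) + 2) ^ ((m + 2) * (2 * m + 1))
      = Real.exp (Real.log (e + 2) * (((m : ℝ) + 2) * (2 * m + 1))) := by
    have he : (0 : ℝ) < (e : ℝ) + 2 := by positivity
    rw [← Real.exp_log he, ← Real.exp_nat_mul, Real.exp_log he]
    congr 1
    push_cast
    ring
  calc ((m : ℝ) + 2 + 1) * ((2 * m + 1 + 1) * ((e : ℝ) + 2) ^ ((m + 2) * (2 * m + 1)))
      ≤ Real.exp (m + 2) * (Real.exp (2 * m + 1)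
          * Real.exp (Real.log (e + 2) * (((m : ℝ) + 2) * (2 * m + 1)))) := by
        rw [h4]
        gcongr
    _ = Real.exp ((m + 2) + ((2 * m + 1) + Real.log (e + 2) * (((m : ℝ) + 2) * (2 * m + 1)))) := by
        rw [← Real.exp_add, ← Real.exp_add]
    _ ≤ _ := by
        apply Real.exp_le_exp.2
        nlinarith [mul_nonneg hl hm, mul_nonneg hm hm, mul_nonneg hl (mul_nonneg hm hm)]

/-- The theorem for one torus. -/
theorem stmCore : StmCore := by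
  intro d R
  match d with
  | 0 =>
    refine ⟨0, fun ε _ _ => ⟨0, by simp, fun n₁ _ ρ hρ _ => ?_⟩⟩
    exfalso
    have h := hρ.tr
    have : IsEmpty (Tor n₁ → Fin 0) := ⟨fun c => (c (0, 0)).elim0⟩
    rw [Fintype.sum_empty] at h
    exact zero_ne_one h
  | 1 =>
    refine ⟨0, fun ε hε _ => ⟨1, by simp, fun n₁ _ ρ hρ _ => ⟨fun _ _ _ _ _ => 1, ?_⟩⟩⟩
    refine Eventually.of_forall fun n => ?_
    have hp : ∀ s, peps (fun (_ : Fin 1) (_ _ _ _ : Fin 1) => (1 : ℂ)) n s = 1 := by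
      intro s
      unfold peps
      rw [Fintype.sum_unique, Fintype.sum_unique, prod_const_one]
    refine ⟨fun h0 => ?_, ?_⟩
    · have h := hp fun _ => 0
      rw [h0] at h
      exact zero_ne_one h
    · have ht : ∑ c, pureState (peps (fun (_ : Fin 1) (_ _ _ _ : Fin 1) => (1 : ℂ)) n) c c = 1 := by
        rw [Fintype.sum_unique]
        unfold pureState
        rw [Fintype.sum_unique, hp]
        simp
      have h0 : dist1 (red (pos n R) (pureState (peps (fun (_ : Fin 1) (_ _ _ _ : Fin 1) =>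
          (1 : ℂ)) n))) (red (pos n₁ R) ρ) = 0 := by
        unfold dist1
        refine sum_eq_zero fun x _ => sum_eq_zero fun y _ => ?_
        rw [red_one _ ht, red_one _ hρ.tr, sub_self, norm_zero]
      rw [h0]
      exact hε.le
  | e + 2 =>
    obtain ⟨b, hb⟩ := exists_box R
    obtain ⟨K, hK⟩ : ∃ K : ℝ, K = ((e + 2 : ℕ) : ℝ) ^ Fintype.card R := ⟨_, rfl⟩
    have hK0 : 0 < K := by rw [hK]; positivity
    obtain ⟨C₀, hC₀⟩ : ∃ C₀ : ℝ, C₀ = 2 * K * (4 * b + 4) + 4 * b + 4 := ⟨_, rfl⟩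
    have hC₀0 : 1 ≤ C₀ := by rw [hC₀]; nlinarith [(Nat.cast_nonneg b : (0:ℝ) ≤ b)]
    have hl : 0 ≤ Real.log ((e : ℝ) + 2) :=
      Real.log_nonneg (by linarith [(Nat.cast_nonneg e : (0:ℝ) ≤ e)])
    refine ⟨2 * (2 + Real.log (e + 2)) * C₀ ^ 2, fun ε hε hε1 => ?_⟩
    obtain ⟨m₀, hm₀⟩ : ∃ m₀, m₀ = ⌈2 * K * (4 * b + 4) / ε⌉₊ := ⟨_, rfl⟩
    have hm₁ : 2 * K * (4 * b + 4) / ε ≤ m₀ := by rw [hm₀]; exact Nat.le_ceil _
    have hm₂ : (m₀ : ℝ) < 2 * K * (4 * b + 4) / ε + 1 := by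
      rw [hm₀]
      exact Nat.ceil_lt_add_one (by positivity)
    obtain ⟨m, hm⟩ : ∃ m, m = m₀ + 2 * b + 1 := ⟨_, rfl⟩
    have hmb : 2 * b + 1 ≤ m := by omega
    have hmK : 2 * K * (4 * b + 4) ≤ ε * m := by
      have h7 : (m₀ : ℝ) ≤ m := by exact_mod_cast (by omega : m₀ ≤ m)
      rw [div_le_iff₀ hε] at hm₁
      nlinarith
    have hmC : (m : ℝ) + 2 * b + 2 ≤ C₀ / ε := by
      have h8 : (m : ℝ) = m₀ + 2 * b + 1 := by rw [hm]; push_cast; ring
      have h9 : (4 * (b : ℝ) + 4) ≤ (4 * b + 4) / ε := by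
        rw [le_div_iff₀ hε]
        nlinarith [(Nat.cast_nonneg b : (0:ℝ) ≤ b)]
      have h10 : C₀ / ε = 2 * K * (4 * b + 4) / ε + (4 * b + 4) / ε := by
        rw [hC₀]
        ring
      linarith
    refine ⟨Fintype.card (Pool.Agent.Q68.PP.St (e + 2) (m + 2) (2 * m + 1)), ?_, ?_⟩
    · refine (card_le e m).trans ?_
      apply Real.exp_le_exp.2
      have h11 : ((m : ℝ) + 2) ^ 2 ≤ C₀ ^ 2 / ε ^ 2 := by
        rw [← div_pow]
        exact pow_le_pow_left₀ (by positivity)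
          (by linarith [(Nat.cast_nonneg b : (0:ℝ) ≤ b)]) 2
      calc 2 * (2 + Real.log (e + 2)) * ((m : ℝ) + 2) ^ 2
          ≤ 2 * (2 + Real.log (e + 2)) * (C₀ ^ 2 / ε ^ 2) :=
            mul_le_mul_of_nonneg_left h11 (by positivity)
        _ = 2 * (2 + Real.log (e + 2)) * C₀ ^ 2 / ε ^ 2 := by ring
    · intro n₁ hn₁ ρ hρ hρt
      refine main3 Pool.Agent.Q68.PP.walk_facts Pool.Agent.Q68.PP.orth Pool.Agent.Q68.PP.marg
        Pool.Agent.Q68.PP.block_state Pool.Agent.Q68.PP.reduced e b m R hb K hK ε hmb hmK n₁ ?_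
        ρ hρ hρt
      have h12 : C₀ / ε ≤ n₁ := by
        refine le_trans ?_ hn₁
        refine div_le_div_of_nonneg_right ?_ hε.le
        nlinarith [mul_nonneg hl (sq_nonneg C₀)]
      have h13 : ((m + 2 * b : ℕ) : ℝ) ≤ n₁ := by
        push_cast
        linarith
      exact_mod_cast h13

/-- The theorem for families. -/
theorem stmMainF : StmMainF := by
  intro d R
  obtain ⟨C, hC⟩ := stmCore d R
  refine ⟨C, fun ε hε hε1 => ?_⟩
  obtain ⟨D, hD, h⟩ := hC ε hε hε1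
  refine ⟨D, hD, fun l hl hla ρ hρ δ hδ => ?_⟩
  obtain ⟨n₀, hn₀⟩ := exists_nat_ge (C / ε)
  obtain ⟨n₁, ⟨hδ₁, hρ₁⟩, hn₁⟩ := ((hδ.and hρ).and (hla (eventually_ge_atTop n₀))).exists
  obtain ⟨A, hA⟩ := h n₁ (hn₀.trans (by exact_mod_cast hn₁)) (ρ n₁) hρ₁.1 hρ₁.2
  refine ⟨A, hA.mono fun n hn => hn.1, ?_⟩
  filter_upwards [hla hA, hδ₁] with n h1 h2
  have htri := dist1_tri (red (pos n R) (pureState (peps A n))) (red (pos n₁ R) (ρ n₁))
    (red (pos n R) (ρ n))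
  linarith [h1.2]

end Pool.Agent.Q85.PP
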